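import Pool.Agent.Helper61.Motz.Peel

/-!
# Level two: different planes for one colour
-/

set_option autoImplicit false
set_option linter.unusedSectionVars false

namespace Pool.Agent.Helper28.Level2

open Pool.Agent.Helper28.BPack Pool.Agent.Helper61.Motz

/-- Hall's theorem from a kernel condition. -/
theorem hall_of_kernel {X Y : Type} [Fintype X] [DecidableEq Y] (T : X → Finset Y)
    (h : ∀ f : X → ℚ, (∀ y, (∑ x, if y ∈ T x then f x else 0) = 0) → ∀ x, f x = 0) :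
    ∃ F : X → Y, Function.Injective F ∧ ∀ x, F x ∈ T x := by
  classical
  apply (Finset.all_card_le_biUnion_card_iff_exists_injective T).mp
  intro s
  by_contra hcon
  push Not at hcon
  let φ : (↥s → ℚ) →ₗ[ℚ] (↥(s.biUnion T) → ℚ) :=
    { toFun := fun g y => ∑ x : s, if y.1 ∈ T x.1 then g x else 0
      map_add' := by
        intro g g'
        funext y
        simp only [Pi.add_apply]
        rw [← Finset.sum_add_distrib]
        apply Finset.sum_congr rfl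
        intro x _
        split_ifs <;> simp
      map_smul' := by
        intro a g
        funext y
        simp only [Pi.smul_apply, smul_eq_mul, RingHom.id_apply]
        rw [Finset.mul_sum]
        apply Finset.sum_congr rfl
        intro x _
        split_ifs <;> simp }
  have h1 : LinearMap.ker φ ≠ ⊥ := by
    apply LinearMap.ker_ne_bot_of_finrank_lt
    rw [Module.finrank_pi, Module.finrank_pi, Fintype.card_coe, Fintype.card_coe]
    exact hcon
  obtain ⟨g, hg, hg0⟩ := (Submodule.ne_bot_iff _).mp h1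
  apply hg0
  have h2 := h (fun x => if hx : x ∈ s then g ⟨x, hx⟩ else 0) ?_
  · funext x
    have h3 := h2 x.1
    simp only [x.2, dite_true] at h3
    exact h3
  · intro y
    have e1 : (∑ x, if y ∈ T x then (if hx : x ∈ s then g ⟨x, hx⟩ else 0) else 0) =
        ∑ x ∈ s, if y ∈ T x then (if hx : x ∈ s then g ⟨x, hx⟩ else 0) else 0 := by
      symm
      apply Finset.sum_subset (Finset.subset_univ _)
      intro x _ hx
      simp [hx]
    have e2 : (∑ x ∈ s, if y ∈ T x then (if hx : x ∈ s then g ⟨x, hx⟩ else 0) else 0) =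
        ∑ x : s, if y ∈ T x.1 then g x else 0 := by
      rw [← Finset.sum_coe_sort s]
      apply Finset.sum_congr rfl
      intro x _
      simp [x.2]
    rw [e1, e2]
    by_cases hy : y ∈ s.biUnion T
    · have h3 := congrFun (LinearMap.mem_ker.mp hg) ⟨y, hy⟩
      exact h3
    · apply Finset.sum_eq_zero
      intro x _
      rw [if_neg]
      intro h4
      exact hy (Finset.mem_biUnion.mpr ⟨x.1, x.2, h4⟩)

variable {L : Type} [Lattice L] [BoundedOrder L] [Finite L] [IsUpperModularLattice L]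

section

variable {u c : L}

theorem rk_cy (hu : rk u = 2) (hc : IsAtom c) (hcu : c ≤ u) {y : L} (hy : IsAtom y)
    (hyu : ¬ y ≤ u) : rk (c ⊔ y) = 2 := rk_line hc hy (fun h => hyu (h ▸ hcu))

theorem rk_uy (hu : rk u = 2) {y : L} (hy : IsAtom y) (hyu : ¬ y ≤ u) : rk (y ⊔ u) = 3 := by
  rw [sup_comm, rk_sup_atom hy hyu, hu]

theorem not_u_le_cy (hu : rk u = 2) (hc : IsAtom c) (hcu : c ≤ u) {y : L} (hy : IsAtom y)
    (hyu : ¬ y ≤ u) : ¬ u ≤ c ⊔ y := by
  intro h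
  have h1 := eq_of_le_of_rk h (by rw [rk_cy hu hc hcu hy hyu, hu])
  exact hyu (h1 ▸ le_sup_right)

/-- The plane spanned by the line `c y` and a point off the plane `y u`. -/
theorem rk_cyx (hu : rk u = 2) (hc : IsAtom c) (hcu : c ≤ u) {y x : L} (hy : IsAtom y)
    (hyu : ¬ y ≤ u) (hx : IsAtom x) (hxy : ¬ x ≤ y ⊔ u) :
    rk (c ⊔ y ⊔ x) = 3 ∧ ¬ u ≤ c ⊔ y ⊔ x := by
  have h1 : ¬ x ≤ c ⊔ y := fun h => hxy (h.trans (sup_le (hcu.trans le_sup_right) le_sup_left))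
  have h2 : rk (c ⊔ y ⊔ x) = 3 := by rw [rk_sup_atom hx h1, rk_cy hu hc hcu hy hyu]
  refine ⟨h2, fun h => hxy ?_⟩
  have h3 : y ⊔ u = c ⊔ y ⊔ x := eq_of_le_of_rk
    (sup_le (le_sup_right.trans le_sup_left) h) (by rw [h2, rk_uy hu hy hyu])
  rw [h3]
  exact le_sup_right

/-- A point of the plane `y u` and of a plane through `c y` which does not contain `u`. -/
theorem le_cy (hu : rk u = 2) (hc : IsAtom c) (hcu : c ≤ u) {y x H : L} (hy : IsAtom y)
    (hyu : ¬ y ≤ u) (hx : IsAtom x) (hxy : x ≤ y ⊔ u) (hH : rk H = 3) (hcH : c ≤ H)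
    (huH : ¬ u ≤ H) (hyH : y ≤ H) (hxH : x ≤ H) : x ≤ y ⊔ c := by
  by_contra hcon
  rw [sup_comm] at hcon
  have h2 : rk (c ⊔ y ⊔ x) = 3 := by rw [rk_sup_atom hx hcon, rk_cy hu hc hcu hy hyu]
  have h3 : c ⊔ y ⊔ x = H := eq_of_le_of_rk (sup_le (sup_le hcH hyH) hxH) (by rw [h2, hH])
  have h4 : c ⊔ y ⊔ x = y ⊔ u := eq_of_le_of_rk
    (sup_le (sup_le (hcu.trans le_sup_right) le_sup_left) hxy) (by rw [h2, rk_uy hu hy hyu])
  exact huH (h3 ▸ h4 ▸ le_sup_right)

/-- A plane through `c`, `y`, `x` with `x` off `y u` is `c y x`. -/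
theorem eq_cyx (hu : rk u = 2) (hc : IsAtom c) (hcu : c ≤ u) {y x H : L} (hy : IsAtom y)
    (hyu : ¬ y ≤ u) (hx : IsAtom x) (hxy : ¬ x ≤ y ⊔ u) (hH : rk H = 3) (hcH : c ≤ H)
    (hyH : y ≤ H) (hxH : x ≤ H) : H = c ⊔ y ⊔ x :=
  (eq_of_le_of_rk (sup_le (sup_le hcH hyH) hxH)
    (by rw [(rk_cyx hu hc hcu hy hyu hx hxy).1, hH])).symm

end

/-- The double count. -/
theorem ident {A G HH : Finset L} {u c : L} (hA : ∀ a ∈ A, IsAtom a) (hu : rk u = 2)
    (hc : IsAtom c) (hcu : c ≤ u) (hG : ∀ x ∈ G, x ∈ A ∧ ¬ x ≤ u)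
    (hHH : ∀ H, H ∈ HH ↔ rk H = 3 ∧ c ≤ H ∧ ¬ u ≤ H ∧ ∃ y ∈ A, ∃ z ∈ A, H = c ⊔ y ⊔ z)
    [DecidableEq L] [DecidableRel (α := L) (· ≤ ·)]
    (f : L → ℚ) {y : L} (hy : y ∈ A) (hyu : ¬ y ≤ u) :
    ∑ H ∈ HH.filter (fun H => y ≤ H), ∑ x ∈ G.filter (fun x => x ≤ H), f x =
      ((HH.filter (fun H => y ≤ H)).card : ℚ) * ∑ x ∈ G.filter (fun x => x ≤ y ⊔ c), f x +
        (∑ x ∈ G, f x - ∑ x ∈ G.filter (fun x => x ≤ y ⊔ u), f x) := by
  have hya := hA y hy
  have h1 : ∑ H ∈ HH.filter (fun H => y ≤ H), ∑ x ∈ G.filter (fun x => x ≤ H), f x =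
      ∑ x ∈ G, f x * (((HH.filter (fun H => y ≤ H)).filter (fun H => x ≤ H)).card : ℚ) := by
    simp only [Finset.sum_filter (s := G)]
    rw [Finset.sum_comm]
    apply Finset.sum_congr rfl
    intro x _
    rw [← Finset.sum_filter, Finset.sum_const, nsmul_eq_mul, mul_comm]
  have h2 : ∀ x ∈ G, (((HH.filter (fun H => y ≤ H)).filter (fun H => x ≤ H)).card : ℚ) =
      (if x ≤ y ⊔ c then ((HH.filter (fun H => y ≤ H)).card : ℚ) else 0) +
        (1 - if x ≤ y ⊔ u then 1 else 0) := by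
    intro x hx
    obtain ⟨hxA, hxu⟩ := hG x hx
    have hxa := hA x hxA
    by_cases hxc : x ≤ y ⊔ c
    · have hxyu : x ≤ y ⊔ u := hxc.trans (sup_le_sup_left hcu y)
      rw [if_pos hxc, if_pos hxyu]
      have h3 : (HH.filter (fun H => y ≤ H)).filter (fun H => x ≤ H) =
          HH.filter (fun H => y ≤ H) := by
        apply Finset.filter_true_of_mem
        intro H hH
        rw [Finset.mem_filter] at hH
        exact hxc.trans (sup_le hH.2 ((hHH H).mp hH.1).2.1)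
      rw [h3]
      ring
    · rw [if_neg hxc]
      by_cases hxyu : x ≤ y ⊔ u
      · rw [if_pos hxyu]
        have h3 : (HH.filter (fun H => y ≤ H)).filter (fun H => x ≤ H) = ∅ := by
          rw [Finset.filter_eq_empty_iff]
          intro H hH hxH
          rw [Finset.mem_filter] at hH
          obtain ⟨h4, h5, h6, -⟩ := (hHH H).mp hH.1
          exact hxc (le_cy hu hc hcu hya hyu hxa hxyu h4 h5 h6 hH.2 hxH)
        rw [h3]
        simp
      · rw [if_neg hxyu]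
        obtain ⟨h4, h5⟩ := rk_cyx hu hc hcu hya hyu hxa hxyu
        have h3 : (HH.filter (fun H => y ≤ H)).filter (fun H => x ≤ H) = {c ⊔ y ⊔ x} := by
          ext H
          rw [Finset.mem_filter, Finset.mem_filter, Finset.mem_singleton]
          constructor
          · rintro ⟨⟨h6, h7⟩, h8⟩
            obtain ⟨h9, h10, -, -⟩ := (hHH H).mp h6
            exact eq_cyx hu hc hcu hya hyu hxa hxyu h9 h10 h7 h8
          · rintro rfl
            exact ⟨⟨(hHH _).mpr ⟨h4, le_sup_left.trans le_sup_left, h5, y, hy, x, hxA, rfl⟩,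
              le_sup_right.trans le_sup_left⟩, le_sup_right⟩
        rw [h3]
        simp
  rw [h1, Finset.mul_sum, Finset.sum_filter, Finset.sum_filter, ← Finset.sum_sub_distrib,
    ← Finset.sum_add_distrib]
  apply Finset.sum_congr rfl
  intro x hx
  rw [h2 x hx]
  split_ifs <;> ring

/-- The kernel lemma. -/
theorem kernel [DecidableEq L] [DecidableRel (α := L) (· ≤ ·)] {A G HH : Finset L}
    {u v c r1 r2 : L} {r : L → L}
    (hA : ∀ a ∈ A, IsAtom a) (hrA : rk (A.sup id) = 4) (hu : rk u = 2) (hv : rk v = 2)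
    (huv : rk (u ⊔ v) = 4) (hc : c ∈ A) (hcu : c ≤ u)
    (hr1 : r1 ∈ A) (hr2 : r2 ∈ A) (hr1v : r1 ≤ v) (hr2v : r2 ≤ v) (hr12 : r1 ≠ r2)
    (hG : ∀ x ∈ G, x ∈ A ∧ ¬ x ≤ u ∧ r x ∈ A ∧ ¬ r x ≤ u ∧ r x ≤ x ⊔ u ∧ ¬ r x ≤ x ⊔ c)
    (hcl : ∀ x ∈ G, ∀ y ∈ G, x ⊔ u = y ⊔ u → r x = r y)
    (hc1 : ∀ x ∈ G, x ⊔ u = r1 ⊔ u → r x = r1) (hc2 : ∀ x ∈ G, x ⊔ u = r2 ⊔ u → r x = r2)
    (hinj : ∀ x ∈ G, ∀ y ∈ G, x ⊔ c = y ⊔ c → x = y)
    (hno : ∀ x ∈ G, x ≤ c ⊔ v → ∃ y ∈ A, ¬ y ≤ x ⊔ u ∧ ¬ y ≤ c ⊔ v)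
    (hHH : ∀ H, H ∈ HH ↔ rk H = 3 ∧ c ≤ H ∧ ¬ u ≤ H ∧ ∃ y ∈ A, ∃ z ∈ A, H = c ⊔ y ⊔ z)
    (f : L → ℚ) (hf : ∀ H ∈ HH, H ≠ c ⊔ v → ∑ x ∈ G.filter (fun x => x ≤ H), f x = 0) :
    ∀ x ∈ G, f x = 0 := by
  have hca := hA c hc
  have hr1a := hA r1 hr1
  have hr2a := hA r2 hr2
  have hcv : ¬ c ≤ v := by
    intro h
    have h1 : rk (u ⊔ v) ≤ 3 := by
      obtain ⟨s, hs⟩ : ∃ w, w = u ⊔ v := ⟨_, rfl⟩
      have h2 : u ⊔ v = v ⊔ u := sup_comm _ _
      -- `u` is spanned by `c` and one more atom, so use submodularity in the form of `rk`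
      have h3 : ∃ b ∈ A, b ≤ v ∧ ¬ b ≤ u := by
        by_contra hcon
        push Not at hcon
        have h4 := hcon r1 hr1 hr1v
        have h5 := hcon r2 hr2 hr2v
        have h6 : r1 ⊔ r2 = u := line_eq hr1a hr2a hr12 h4 h5 hu
        have h7 : r1 ⊔ r2 = v := line_eq hr1a hr2a hr12 hr1v hr2v hv
        rw [← h6, h7, sup_idem, hv] at huv
        omega
      obtain ⟨b, hb, hbv, hbu⟩ := h3
      have h4 : c ⊔ b = v := line_eq hca (hA b hb) (fun h => hbu (h ▸ hcu)) h hbv hv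
      have h5 : u ⊔ v = u ⊔ b := by
        rw [← h4, ← sup_assoc, sup_eq_left.mpr hcu]
      rw [h5, rk_sup_atom (hA b hb) hbu, hu]
    omega
  have hvr : r1 ⊔ r2 = v := line_eq hr1a hr2a hr12 hr1v hr2v hv
  have hr1u : ¬ r1 ≤ u := by
    intro h
    have h1 : u ⊔ v = u ⊔ r2 := by rw [← hvr, ← sup_assoc, sup_eq_left.mpr h]
    have h2 := rk_sup_atom_le (x := u) hr2a
    rw [← h1, hu] at h2
    omega
  have hr2u : ¬ r2 ≤ u := by
    intro h
    have h1 : u ⊔ v = u ⊔ r1 := by rw [← hvr, sup_comm r1 r2, ← sup_assoc, sup_eq_left.mpr h]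
    have h2 := rk_sup_atom_le (x := u) hr1a
    rw [← h1, hu] at h2
    omega
  have hP12 : r1 ⊔ u ≠ r2 ⊔ u := by
    intro h
    have h1 : v ≤ r1 ⊔ u := by
      rw [← hvr]
      exact sup_le le_sup_left (h ▸ le_sup_left)
    have h2 : u ⊔ v ≤ r1 ⊔ u := sup_le le_sup_right h1
    have h3 := rk_mono h2
    rw [huv, rk_uy hu hr1a hr1u] at h3
    omega
  have hL0rk : rk (c ⊔ v) = 3 := by rw [sup_comm, rk_sup_atom hca hcv, hv]
  have hL0u : ¬ u ≤ c ⊔ v := by
    intro h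
    have h1 : u ⊔ v ≤ c ⊔ v := sup_le h le_sup_right
    have h2 := rk_mono h1
    rw [huv, hL0rk] at h2
    omega
  have hL0 : c ⊔ v ∈ HH := (hHH _).mpr ⟨hL0rk, le_sup_left, hL0u, r1, hr1, r2, hr2, by
    rw [sup_assoc, hvr]⟩
  set e : ℚ := ∑ x ∈ G.filter (fun x => x ≤ c ⊔ v), f x with he
  set S : ℚ := ∑ x ∈ G, f x with hS
  set D : L → ℚ := fun y => ((HH.filter (fun H => y ≤ H)).card : ℚ) with hD
  set T : L → ℚ := fun y => ∑ x ∈ G.filter (fun x => x ≤ y ⊔ u), f x with hT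
  have hG2 : ∀ x ∈ G, x ∈ A ∧ ¬ x ≤ u := fun x hx => ⟨(hG x hx).1, (hG x hx).2.1⟩
  have key : ∀ y ∈ A, ¬ y ≤ u →
      D y * ∑ x ∈ G.filter (fun x => x ≤ y ⊔ c), f x + (S - T y) =
        if y ≤ c ⊔ v then e else 0 := by
    intro y hy hyu
    rw [hD, hT, hS]
    simp only
    rw [← ident hA hu hca hcu hG2 hHH f hy hyu]
    split_ifs with h
    · rw [Finset.sum_eq_single (c ⊔ v)]
      · intro H hH hne
        exact hf H (Finset.mem_filter.mp hH).1 hne
      · intro h2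
        exact absurd (Finset.mem_filter.mpr ⟨hL0, h⟩) h2
    · apply Finset.sum_eq_zero
      intro H hH
      rw [Finset.mem_filter] at hH
      exact hf H hH.1 (fun h2 => h (h2 ▸ hH.2))
  -- points of `G` on a line through `c`
  have hFx : ∀ x ∈ G, ∑ z ∈ G.filter (fun z => z ≤ x ⊔ c), f z = f x := by
    intro x hx
    have h1 : G.filter (fun z => z ≤ x ⊔ c) = {x} := by
      ext z
      rw [Finset.mem_filter, Finset.mem_singleton]
      constructor
      · rintro ⟨hz, hzx⟩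
        apply hinj z hz x hx
        obtain ⟨h2, h3, -⟩ := hG z hz
        obtain ⟨h4, h5, -⟩ := hG x hx
        apply eq_of_le_of_rk (sup_le hzx le_sup_right)
        rw [sup_comm z c, sup_comm x c, rk_cy hu hca hcu (hA z h2) h3,
          rk_cy hu hca hcu (hA x h4) h5]
      · rintro rfl
        exact ⟨hx, le_sup_left⟩
    rw [h1, Finset.sum_singleton]
  have hF0 : ∀ y ∈ A, ¬ y ≤ u → (∀ z ∈ G, z ⊔ u = y ⊔ u → r z = y) →
      ∑ z ∈ G.filter (fun z => z ≤ y ⊔ c), f z = 0 := by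
    intro y hy hyu hyr
    have h1 : G.filter (fun z => z ≤ y ⊔ c) = ∅ := by
      rw [Finset.filter_eq_empty_iff]
      intro z hz hzy
      obtain ⟨h2, h3, h4, h5, h6, h7⟩ := hG z hz
      have h8 : z ⊔ u = y ⊔ u := by
        apply eq_of_le_of_rk (sup_le (hzy.trans (sup_le_sup_left hcu y)) le_sup_right)
        rw [rk_uy hu (hA z h2) h3, rk_uy hu (hA y hy) hyu]
      have h9 : z ⊔ c = y ⊔ c := by
        apply eq_of_le_of_rk (sup_le hzy le_sup_right)
        rw [sup_comm z c, sup_comm y c, rk_cy hu hca hcu (hA z h2) h3,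
          rk_cy hu hca hcu (hA y hy) hyu]
      apply h7
      rw [hyr z hz h8, h9]
      exact le_sup_left
    rw [h1, Finset.sum_empty]
  have hPeq : ∀ x ∈ G, r x ⊔ u = x ⊔ u := by
    intro x hx
    obtain ⟨h2, h3, h4, h5, h6, h7⟩ := hG x hx
    apply eq_of_le_of_rk (sup_le h6 le_sup_right)
    rw [rk_uy hu (hA x h2) h3, rk_uy hu (hA _ h4) h5]
  have hTr : ∀ x ∈ G, T (r x) = T x := by
    intro x hx
    rw [hT]
    simp only
    rw [hPeq x hx]
  -- the two equations at `x` and at `r x`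
  have hrx : ∀ x ∈ G, S - T x = if r x ≤ c ⊔ v then e else 0 := by
    intro x hx
    obtain ⟨h2, h3, h4, h5, h6, h7⟩ := hG x hx
    have h8 := key (r x) h4 h5
    rw [hF0 (r x) h4 h5 (fun z hz hzx => hcl z hz x hx (hzx.trans (hPeq x hx))), mul_zero,
      zero_add, hTr x hx] at h8
    exact h8
  have hxx : ∀ x ∈ G, D x * f x = (if x ≤ c ⊔ v then e else 0) - if r x ≤ c ⊔ v then e else 0 := by
    intro x hx
    have h8 := key x (hG x hx).1 (hG x hx).2.1
    rw [hFx x hx, hrx x hx] at h8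
    linarith
  have hboth : ∀ x ∈ G, x ≤ c ⊔ v → ¬ r x ≤ c ⊔ v := by
    intro x hx h1 h2
    obtain ⟨h3, h4, h5, h6, h7, h8⟩ := hG x hx
    exact h8 (le_cy hu hca hcu (hA x h3) h4 (hA _ h5) h7 hL0rk le_sup_left hL0u h1 h2)
  have hDpos : ∀ x ∈ G, 0 < D x := by
    intro x hx
    obtain ⟨h3, h4, -⟩ := hG x hx
    have h5 : ∃ y ∈ A, ¬ y ≤ x ⊔ u := by
      by_contra hcon
      push Not at hcon
      have h6 : A.sup id ≤ x ⊔ u := Finset.sup_le hcon
      have h7 := rk_mono h6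
      rw [hrA, rk_uy hu (hA x h3) h4] at h7
      omega
    obtain ⟨y, hy, hyx⟩ := h5
    obtain ⟨h6, h7⟩ := rk_cyx hu hca hcu (hA x h3) h4 (hA y hy) hyx
    rw [hD]
    simp only
    rw [Nat.cast_pos, Finset.card_pos]
    exact ⟨c ⊔ x ⊔ y, Finset.mem_filter.mpr ⟨(hHH _).mpr ⟨h6, le_sup_left.trans le_sup_left, h7,
      x, h3, y, hy, rfl⟩, le_sup_right.trans le_sup_left⟩⟩
  -- it is enough that `e = 0`
  suffices he0 : e = 0 by
    intro x hx
    have h1 := hxx x hx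
    rw [he0] at h1
    simp only [ite_self, sub_self] at h1
    exact (mul_eq_zero.mp h1).resolve_left (hDpos x hx).ne'
  by_contra he0
  have hfx : ∀ x ∈ G, f x = (if x ≤ c ⊔ v then e / D x else 0) -
      if r x ≤ c ⊔ v then e / D x else 0 := by
    intro x hx
    have h1 := hxx x hx
    have h2 := (hDpos x hx).ne'
    have h3 : f x = ((if x ≤ c ⊔ v then e else 0) - if r x ≤ c ⊔ v then e else 0) / D x := by
      rw [eq_div_iff h2, mul_comm]
      exact h1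
    rw [h3, sub_div]
    congr 1
    · split_ifs <;> simp
    · split_ifs <;> simp
  set Δ : ℚ := ∑ x ∈ G, if r x ≤ c ⊔ v then 1 / D x else 0 with hΔ
  have hSΔ : S = e - e * Δ := by
    have h1 : e = ∑ x ∈ G, if x ≤ c ⊔ v then e / D x else 0 := by
      conv_lhs => rw [he]
      rw [Finset.sum_filter]
      apply Finset.sum_congr rfl
      intro x hx
      split_ifs with h2
      · rw [hfx x hx, if_pos h2, if_neg (hboth x hx h2), sub_zero]
      · rfl
    have h3 : e * Δ = ∑ x ∈ G, if r x ≤ c ⊔ v then e / D x else 0 := by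
      rw [hΔ, Finset.mul_sum]
      apply Finset.sum_congr rfl
      intro x _
      split_ifs
      · ring
      · ring
    have h2 : S = ∑ x ∈ G, ((if x ≤ c ⊔ v then e / D x else 0) -
        if r x ≤ c ⊔ v then e / D x else 0) := by
      rw [hS]
      exact Finset.sum_congr rfl hfx
    rw [h2, Finset.sum_sub_distrib, ← h1, h3]
  have hTi : ∀ y ∈ A, ¬ y ≤ u → y ≤ v → (∀ z ∈ G, z ⊔ u = y ⊔ u → r z = y) →
      Δ = ∑ x ∈ G, if x ≤ y ⊔ u then 1 / D x else 0 := by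
    intro y hy hyu hyv hyr
    have h1 := key y hy hyu
    rw [hF0 y hy hyu hyr, mul_zero, zero_add, if_pos (hyv.trans le_sup_right)] at h1
    have hcl2 : ∀ x ∈ G, x ≤ y ⊔ u → r x = y := by
      intro x hx hxy
      apply hyr x hx
      apply eq_of_le_of_rk (sup_le hxy le_sup_right)
      rw [rk_uy hu (hA x (hG x hx).1) (hG x hx).2.1, rk_uy hu (hA y hy) hyu]
    have h2 : T y = - (e * ∑ x ∈ G, if x ≤ y ⊔ u then 1 / D x else 0) := by
      rw [hT]
      simp only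
      rw [Finset.mul_sum, Finset.sum_filter, ← Finset.sum_neg_distrib]
      apply Finset.sum_congr rfl
      intro x hx
      split_ifs with h3
      · have h4 := hcl2 x hx h3
        have h5 : r x ≤ c ⊔ v := by rw [h4]; exact hyv.trans le_sup_right
        have h6 : ¬ x ≤ c ⊔ v := fun h => hboth x hx h h5
        rw [hfx x hx, if_pos h5, if_neg h6]
        ring
      · ring
    rw [hSΔ, h2] at h1
    have h3 : e * (Δ - ∑ x ∈ G, if x ≤ y ⊔ u then 1 / D x else 0) = 0 := by linarith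
    have h4 := (mul_eq_zero.mp h3).resolve_left he0
    linarith
  have h1 := hTi r1 hr1 hr1u hr1v hc1
  have h2 := hTi r2 hr2 hr2u hr2v hc2
  have h3 : (∑ x ∈ G, if x ≤ r1 ⊔ u then 1 / D x else 0) +
      (∑ x ∈ G, if x ≤ r2 ⊔ u then 1 / D x else 0) ≤ Δ := by
    rw [hΔ, ← Finset.sum_add_distrib]
    apply Finset.sum_le_sum
    intro x hx
    have hd := hDpos x hx
    have hd2 : 0 ≤ 1 / D x := by positivity
    have hx1 : ∀ y ∈ A, ¬ y ≤ u → x ≤ y ⊔ u → x ⊔ u = y ⊔ u := by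
      intro y hy hyu hxy
      apply eq_of_le_of_rk (sup_le hxy le_sup_right)
      rw [rk_uy hu (hA x (hG x hx).1) (hG x hx).2.1, rk_uy hu (hA y hy) hyu]
    by_cases ha : x ≤ r1 ⊔ u
    · have ha1 := hx1 r1 hr1 hr1u ha
      have hb : ¬ x ≤ r2 ⊔ u := fun hb => hP12 (ha1.symm.trans (hx1 r2 hr2 hr2u hb))
      have hc3 : r x ≤ c ⊔ v := by rw [hc1 x hx ha1]; exact hr1v.trans le_sup_right
      rw [if_pos ha, if_neg hb, if_pos hc3]
      linarith
    · by_cases hb : x ≤ r2 ⊔ u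
      · have hb1 := hx1 r2 hr2 hr2u hb
        have hc3 : r x ≤ c ⊔ v := by rw [hc2 x hx hb1]; exact hr2v.trans le_sup_right
        rw [if_neg ha, if_pos hb, if_pos hc3]
        linarith
      · rw [if_neg ha, if_neg hb]
        split_ifs
        · linarith
        · linarith
  have hnn : ∀ x ∈ G, 0 ≤ (if r x ≤ c ⊔ v then 1 / D x else 0) := by
    intro x hx
    have hd := hDpos x hx
    split_ifs
    · positivity
    · exact le_refl _
  have hΔ0 : Δ = 0 := by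
    have h4 : 0 ≤ Δ := Finset.sum_nonneg hnn
    linarith
  have hno2 : ∀ x ∈ G, ¬ r x ≤ c ⊔ v := by
    intro x hx h4
    have h5 := (Finset.sum_eq_zero_iff_of_nonneg hnn).mp hΔ0 x hx
    rw [if_pos h4] at h5
    have hd := hDpos x hx
    have : 0 < 1 / D x := by positivity
    linarith
  have hSe : S = e := by rw [hSΔ, hΔ0]; ring
  -- a point of `G` below `c ⊔ v`
  have hex : ∃ x ∈ G, x ≤ c ⊔ v := by
    by_contra hcon
    push Not at hcon
    apply he0
    rw [he]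
    have : G.filter (fun x => x ≤ c ⊔ v) = ∅ := by
      rw [Finset.filter_eq_empty_iff]
      exact hcon
    rw [this, Finset.sum_empty]
  obtain ⟨x, hx, hxL⟩ := hex
  have h4 := hrx x hx
  rw [if_neg (hno2 x hx)] at h4
  obtain ⟨hxA, hxu, hx3, hx4, hx5, hx6⟩ := hG x hx
  have h5 : T x = f x := by
    rw [hT]
    simp only
    rw [Finset.sum_filter, Finset.sum_eq_single x]
    · rw [if_pos le_sup_left]
    · intro z hz hzx
      split_ifs with h6
      · rw [hfx z hz, if_neg (hno2 z hz), sub_zero, if_neg]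
        intro h7
        obtain ⟨hzA, hzu, -⟩ := hG z hz
        have h8 := le_cy hu hca hcu (hA x hxA) hxu (hA z hzA) h6 hL0rk le_sup_left hL0u hxL h7
        apply hzx
        apply hinj z hz x hx
        apply eq_of_le_of_rk (sup_le h8 le_sup_right)
        rw [sup_comm z c, sup_comm x c, rk_cy hu hca hcu (hA z hzA) hzu,
          rk_cy hu hca hcu (hA x hxA) hxu]
      · rfl
    · intro h6
      exact absurd hx h6
  have h6 : f x = e / D x := by
    rw [hfx x hx, if_pos hxL, if_neg (hno2 x hx), sub_zero]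
  have h7 : D x = 1 := by
    have h8 : e = e / D x := by rw [← h6, ← h5, ← hSe]; linarith
    have h9 := (hDpos x hx).ne'
    rw [eq_div_iff h9] at h8
    have h10 : e * (D x - 1) = 0 := by linarith
    have h11 := (mul_eq_zero.mp h10).resolve_left he0
    linarith
  obtain ⟨y, hy, hy1, hy2⟩ := hno x hx hxL
  obtain ⟨h8, h9⟩ := rk_cyx hu hca hcu (hA x hxA) hxu (hA y hy) hy1
  have h10 : c ⊔ x ⊔ y ∈ HH.filter (fun H => x ≤ H) := Finset.mem_filter.mpr
    ⟨(hHH _).mpr ⟨h8, le_sup_left.trans le_sup_left, h9, x, hxA, y, hy, rfl⟩,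
      le_sup_right.trans le_sup_left⟩
  have h11 : c ⊔ v ∈ HH.filter (fun H => x ≤ H) := Finset.mem_filter.mpr ⟨hL0, hxL⟩
  have h12 : (HH.filter (fun H => x ≤ H)).card ≤ 1 := by
    have h13 : ((HH.filter (fun H => x ≤ H)).card : ℚ) = 1 := h7
    have h14 : (HH.filter (fun H => x ≤ H)).card = 1 := by exact_mod_cast h13
    omega
  have h13 := Finset.card_le_one.mp h12 _ h10 _ h11
  exact hy2 (h13 ▸ le_sup_right)

/-- LEVEL 2.  Different planes for one colour `c`. -/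
theorem level2 {A G : Finset L} {u v c r1 r2 : L} {r : L → L}
    (hA : ∀ a ∈ A, IsAtom a) (hrA : rk (A.sup id) = 4) (hu : rk u = 2) (hv : rk v = 2)
    (huv : rk (u ⊔ v) = 4) (hc : c ∈ A) (hcu : c ≤ u)
    (hr1 : r1 ∈ A) (hr2 : r2 ∈ A) (hr1v : r1 ≤ v) (hr2v : r2 ≤ v) (hr12 : r1 ≠ r2)
    (hG : ∀ x ∈ G, x ∈ A ∧ ¬ x ≤ u ∧ r x ∈ A ∧ ¬ r x ≤ u ∧ r x ≤ x ⊔ u ∧ ¬ r x ≤ x ⊔ c)
    (hcl : ∀ x ∈ G, ∀ y ∈ G, x ⊔ u = y ⊔ u → r x = r y)
    (hc1 : ∀ x ∈ G, x ⊔ u = r1 ⊔ u → r x = r1) (hc2 : ∀ x ∈ G, x ⊔ u = r2 ⊔ u → r x = r2)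
    (hinj : ∀ x ∈ G, ∀ y ∈ G, x ⊔ c = y ⊔ c → x = y)
    (hno : ∀ x ∈ G, x ≤ c ⊔ v → ∃ y ∈ A, ¬ y ≤ x ⊔ u ∧ ¬ y ≤ c ⊔ v) :
    ∃ H : L → L, (∀ x ∈ G, rk (H x) = 3 ∧ x ⊔ c ≤ H x ∧ ¬ u ≤ H x ∧ H x ≠ c ⊔ v ∧
        ∃ z ∈ A, z ≤ H x ∧ ¬ z ≤ x ⊔ c) ∧
      (∀ x ∈ G, ∀ y ∈ G, H x = H y → x = y) := by
  classical
  have : Fintype L := Fintype.ofFinite L
  set HH : Finset L := Finset.univ.filter
    (fun H => rk H = 3 ∧ c ≤ H ∧ ¬ u ≤ H ∧ ∃ y ∈ A, ∃ z ∈ A, H = c ⊔ y ⊔ z) with hHHd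
  have hHH : ∀ H, H ∈ HH ↔ rk H = 3 ∧ c ≤ H ∧ ¬ u ≤ H ∧ ∃ y ∈ A, ∃ z ∈ A, H = c ⊔ y ⊔ z := by
    intro H
    rw [hHHd, Finset.mem_filter]
    simp
  obtain ⟨F, hFinj, hF⟩ := hall_of_kernel (X := G) (Y := L)
    (fun x => (HH.erase (c ⊔ v)).filter (fun H => x.1 ≤ H)) (by
      intro f hf x
      have h1 := kernel hA hrA hu hv huv hc hcu hr1 hr2 hr1v hr2v hr12 hG hcl hc1 hc2 hinj hno hHH
        (fun z => if hz : z ∈ G then f ⟨z, hz⟩ else 0) (by
          intro H hH hne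
          have h2 := hf H
          rw [← h2, Finset.sum_filter, ← Finset.sum_coe_sort G]
          apply Finset.sum_congr rfl
          intro z _
          by_cases hzH : z.1 ≤ H
          · rw [if_pos hzH, if_pos]
            · simp [z.2]
            · rw [Finset.mem_filter, Finset.mem_erase]
              exact ⟨⟨hne, hH⟩, hzH⟩
          · rw [if_neg hzH, if_neg]
            rw [Finset.mem_filter]
            exact fun h => hzH h.2) x.1 x.2
      simpa using h1)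
  refine ⟨fun x => if hx : x ∈ G then F ⟨x, hx⟩ else x, ?_, ?_⟩
  · intro x hx
    have h1 := hF ⟨x, hx⟩
    rw [Finset.mem_filter, Finset.mem_erase] at h1
    obtain ⟨⟨h2, h3⟩, h4⟩ := h1
    obtain ⟨h5, h6, h7, y, hy, z, hz, h8⟩ := (hHH _).mp h3
    simp only [hx, dite_true]
    refine ⟨h5, sup_le h4 h6, h7, h2, ?_⟩
    by_contra hcon
    push Not at hcon
    have h9 : y ≤ x ⊔ c := hcon y hy (by rw [h8]; exact le_sup_right.trans le_sup_left)
    have h10 : z ≤ x ⊔ c := hcon z hz (by rw [h8]; exact le_sup_right)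
    have h11 : F ⟨x, hx⟩ ≤ x ⊔ c := by
      rw [h8]
      exact sup_le (sup_le le_sup_right h9) h10
    have h12 := rk_mono h11
    rw [h5, sup_comm, rk_cy hu (hA c hc) hcu (hA x (hG x hx).1) (hG x hx).2.1] at h12
    omega
  · intro x hx y hy hxy
    simp only [hx, hy, dite_true] at hxy
    have h1 := hFinj hxy
    exact congrArg Subtype.val h1

end Pool.Agent.Helper28.Level2
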